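import Pool.Agent.W172.Thin.Str

set_option autoImplicit false
set_option linter.unusedSectionVars false

namespace Pool.Agent.W172.Thin
namespace Dat

open Matrix Topology

theorem natCast_val' {p : ℕ} [Fact p.Prime] (a : ZMod p) : ((a.val : ℕ) : ZMod p) = a := by
  simp

open Classical in
/-- slope of a vector -/
noncomputable def slope {p : ℕ} [Fact p.Prime] (v : ZMod p × ZMod p) : Option (ZMod p) :=
  if v.1 = 0 then none else some (v.2 / v.1)

theorem det_of_slope {p : ℕ} [Fact p.Prime] {v w : ZMod p × ZMod p} (h : slope v = slope w) :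
    v.1 * w.2 - v.2 * w.1 = 0 := by
  unfold slope at h
  split_ifs at h with h1 h2 h2
  · rw [h1, h2]; ring
  · have := Option.some_injective _ h
    field_simp at this
    linear_combination -this

theorem mul_of_det {p : ℕ} [Fact p.Prime] {v z : ZMod p × ZMod p} (hv : v ≠ 0)
    (h : v.1 * z.2 - v.2 * z.1 = 0) : ∃ m : ℕ, z = m • v := by
  by_cases h1 : v.1 = 0
  · have h2 : v.2 ≠ 0 := fun h2 => hv (Prod.ext h1 h2)
    have h3 : z.1 = 0 := by
      rw [h1, zero_mul, zero_sub, neg_eq_zero] at h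
      exact (mul_eq_zero.1 h).resolve_left h2
    refine ⟨(z.2 / v.2).val, Prod.ext ?_ ?_⟩
    · rw [Prod.smul_fst, h1, h3, smul_zero]
    · rw [Prod.smul_snd, nsmul_eq_mul, natCast_val']
      field_simp
  · refine ⟨(z.1 / v.1).val, Prod.ext ?_ ?_⟩
    · rw [Prod.smul_fst, nsmul_eq_mul, natCast_val']
      field_simp
    · rw [Prod.smul_snd, nsmul_eq_mul, natCast_val']
      field_simp
      linear_combination h

theorem span_of_det {p : ℕ} [Fact p.Prime] {v z : ZMod p × ZMod p}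
    (h : v.1 * z.2 - v.2 * z.1 ≠ 0) (w : ZMod p × ZMod p) :
    ∃ m n : ℕ, w = m • v + n • z := by
  refine ⟨((w.1 * z.2 - w.2 * z.1) / (v.1 * z.2 - v.2 * z.1)).val,
    ((v.1 * w.2 - v.2 * w.1) / (v.1 * z.2 - v.2 * z.1)).val, Prod.ext ?_ ?_⟩
  · rw [Prod.fst_add, Prod.smul_fst, Prod.smul_fst, nsmul_eq_mul, nsmul_eq_mul, natCast_val',
      natCast_val', div_mul_eq_mul_div, div_mul_eq_mul_div, ← add_div, eq_div_iff h]
    ring
  · rw [Prod.snd_add, Prod.smul_snd, Prod.smul_snd, nsmul_eq_mul, nsmul_eq_mul, natCast_val',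
      natCast_val', div_mul_eq_mul_div, div_mul_eq_mul_div, ← add_div, eq_div_iff h]
    ring

variable {p : ℕ} [Fact p.Prime] {R : Type} [CommRing R] {D : Dat p R}
variable [TopologicalSpace R] [IsTopologicalRing R] [CompactSpace R] [T2Space R]

theorem mem_of_ob {k : ℕ} {H : Subgroup D.Γ} (hH : D.F (2 * k + 2) ≤ H) {a b z : D.Γ}
    (ha : a ∈ H) (hb : b ∈ H) (ha' : a ∈ D.F (2 * k + 1)) (hb' : b ∈ D.F (2 * k + 1))
    (hz : z ∈ D.F (2 * k + 1)) {m n : ℕ} (h : D.ob k z.1 = m • D.ob k a.1 + n • D.ob k b.1) :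
    z ∈ H := by
  have h1 : a ^ m * b ^ n ∈ D.F (2 * k + 1) :=
    (D.F _).mul_mem ((D.F _).pow_mem ha' _) ((D.F _).pow_mem hb' _)
  have h2 : D.ob k (a ^ m * b ^ n : D.Γ).1 = D.ob k z.1 := by
    rw [h]
    have ha2 : a.1 ∈ D.G (2 * k + 1) := ha'
    have hb2 : b.1 ∈ D.G (2 * k + 1) := hb'
    show D.ob k (a.1 ^ m * b.1 ^ n) = _
    rw [ob_mul ((D.G _).pow_mem ha2 _) ((D.G _).pow_mem hb2 _), ob_pow ha2, ob_pow hb2]
  have h3 : (a ^ m * b ^ n)⁻¹ * z ∈ H := hH ((ob_eq_iff h1 hz).1 h2)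
  have e : z = (a ^ m * b ^ n) * ((a ^ m * b ^ n)⁻¹ * z) := by group
  rw [e]
  exact H.mul_mem (H.mul_mem (H.pow_mem ha _) (H.pow_mem hb _)) h3

theorem mem_of_ev {k : ℕ} (hk : 1 ≤ k) {H : Subgroup D.Γ} (hH : D.F (2 * k + 1) ≤ H) {a z : D.Γ}
    (ha : a ∈ H) (ha' : a ∈ D.F (2 * k)) (ha0 : a ∉ D.F (2 * k + 1))
    (hz : z ∈ D.F (2 * k)) : z ∈ H := by
  have hne : D.ev k a.1 ≠ 0 := fun h => ha0 ((ev_eq_zero hk ha').1 h)
  have h2 : D.ev k (a.1 ^ (D.ev k z.1 / D.ev k a.1).val) = D.ev k z.1 := by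
    have ha2 : a.1 ∈ D.G (2 * k) := ha'
    rw [ev_pow hk ha2, nsmul_eq_mul, natCast_val']
    field_simp
  have h1 : a ^ (D.ev k z.1 / D.ev k a.1).val ∈ D.F (2 * k) := (D.F _).pow_mem ha' _
  have h3 : (a ^ (D.ev k z.1 / D.ev k a.1).val)⁻¹ * z ∈ H := hH ((ev_eq_iff hk h1 hz).1 h2)
  have e : z = (a ^ (D.ev k z.1 / D.ev k a.1).val) *
    ((a ^ (D.ev k z.1 / D.ev k a.1).val)⁻¹ * z) := by group
  rw [e]
  exact H.mul_mem (H.pow_mem ha _) h3

theorem antichain (h2 : (2 : ZMod p) ≠ 0) (S : Set (Subgroup D.Γ))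
    (hS : ∀ H ∈ S, IsClosed (H : Set D.Γ) ∧ H.Normal) (hA : IsAntichain (· ≤ ·) S) :
    S.encard ≤ ((p + 1 : ℕ) : ℕ∞) := by
  by_cases hsub : S.Subsingleton
  · calc S.encard ≤ 1 := Set.encard_le_one_iff_subsingleton.2 hsub
      _ ≤ _ := by exact_mod_cast (by omega : 1 ≤ p + 1)
  have hnb : ∀ H ∈ S, H ≠ ⊥ := by
    intro H hH h
    apply hsub
    intro A hA' B hB'
    have h1 : A = H := by
      by_contra hne
      exact hA hH hA' (Ne.symm hne) (by rw [h]; exact bot_le)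
    have h2 : B = H := by
      by_contra hne
      exact hA hH hB' (Ne.symm hne) (by rw [h]; exact bot_le)
    rw [h1, h2]
  have hlt : ∀ H ∈ S, ∀ H' ∈ S, H ≤ H' → H = H' := by
    intro H hH H' hH' hle
    by_contra hne
    exact hA hH hH' hne hle
  have hne : S.Nonempty := by
    by_contra h
    rw [Set.not_nonempty_iff_eq_empty] at h
    exact hsub (h ▸ Set.subsingleton_empty)
  obtain ⟨H0, hH0⟩ := hne
  obtain ⟨i, hi, hle0, x0, hx0H, hx0, hx0'⟩ := level (hnb H0 hH0)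
  have hge0 : D.F (i + 1) ≤ H0 := main_le h2 (hS H0 hH0).2 (hS H0 hH0).1 hi hx0H hx0 hx0'
  have hall : ∀ H ∈ S, H ≤ D.F i ∧ D.F (i + 1) ≤ H ∧ ∃ x ∈ H, x ∈ D.F i ∧ x ∉ D.F (i + 1) := by
    intro H hH
    obtain ⟨j, hj, hle, x, hxH, hx, hx'⟩ := level (hnb H hH)
    have hge : D.F (j + 1) ≤ H := main_le h2 (hS H hH).2 (hS H hH).1 hj hxH hx hx'
    by_cases hHH : H = H0
    · rw [hHH]; exact ⟨hle0, hge0, x0, hx0H, hx0, hx0'⟩
    have hij : i = j := by
      rcases lt_trichotomy i j with h | h | h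
      · exfalso; exact hHH (hlt H hH H0 hH0 ((hle.trans (F_mono h)).trans hge0))
      · exact h
      · exfalso; exact hHH (hlt H0 hH0 H hH ((hle0.trans (F_mono h)).trans hge)).symm
    subst hij
    exact ⟨hle, hge, x, hxH, hx, hx'⟩
  rcases Nat.even_or_odd' i with ⟨k, hk | hk⟩
  · exfalso
    apply hsub
    subst hk
    have : ∀ H ∈ S, H = D.F (2 * k) := by
      intro H hH
      obtain ⟨h3, h4, x, hxH, hx, hx'⟩ := hall H hH
      refine le_antisymm h3 fun z hz => ?_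
      exact mem_of_ev (by omega) h4 hxH hx hx' hz
    intro A hA' B hB'
    rw [this A hA', this B hB']
  · subst hk
    choose! x hxH hx hx' using fun H hH => (hall H hH).2.2
    have hv : ∀ H ∈ S, D.ob k (x H).1 ≠ 0 := fun H hH h =>
      hx' H hH ((ob_eq_zero (hx H hH)).1 h)
    have hinj : Set.InjOn (fun H => slope (D.ob k (x H).1)) S := by
      intro H hH H' hH' hs
      by_contra hne
      have hdet := det_of_slope hs
      obtain ⟨m, hm⟩ := mul_of_det (hv H hH) hdet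
      have hx'H : x H' ∈ H := by
        refine mem_of_ob (hall H hH).2.1 (hxH H hH) (hxH H hH) (hx H hH) (hx H hH)
          (hx H' hH') (m := m) (n := 0) ?_
        rw [hm]; simp
      have hnle : ¬ H ≤ H' := fun h => hne (hlt H hH H' hH' h)
      obtain ⟨z, hz, hz'⟩ := SetLike.not_le_iff_exists.1 hnle
      have hzF : z ∈ D.F (2 * k + 1) := (hall H hH).1 hz
      by_cases hd : (D.ob k (x H').1).1 * (D.ob k z.1).2 - (D.ob k (x H').1).2 * (D.ob k z.1).1 = 0
      · obtain ⟨n, hn⟩ := mul_of_det (hv H' hH') hd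
        apply hz'
        refine mem_of_ob (hall H' hH').2.1 (hxH H' hH') (hxH H' hH') (hx H' hH') (hx H' hH')
          hzF (m := n) (n := 0) ?_
        rw [hn]; simp
      · have hge : D.F (2 * k + 1) ≤ H := by
          intro g hg
          obtain ⟨a, b, hab⟩ := span_of_det hd (D.ob k g.1)
          exact mem_of_ob (hall H hH).2.1 hx'H hz (hx H' hH') hzF hg hab
        exact hne (hlt H' hH' H hH ((hall H' hH').1.trans hge)).symm
    rw [← hinj.encard_image]
    calc ((fun H => slope (D.ob k (x H).1)) '' S).encard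
        ≤ (Set.univ : Set (Option (ZMod p))).encard := Set.encard_le_encard (Set.subset_univ _)
      _ = ((p + 1 : ℕ) : ℕ∞) := by
          rw [Set.encard_univ, ENat.card_eq_coe_fintype_card, Fintype.card_option, ZMod.card]

end Dat
end Pool.Agent.W172.Thin
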