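import Pool.Agent.W172.Thin.Str

set_option autoImplicit false
set_option linter.unusedSectionVars false

namespace Pool.Agent.W172.Thin

open Matrix Topology
open scoped commutatorElement

/-- closed lower central series -/
def lcs (G : Type) [Group G] [TopologicalSpace G] [IsTopologicalGroup G] : ℕ → Subgroup G
  | 0 => ⊤
  | n + 1 => (⁅lcs G n, (⊤ : Subgroup G)⁆ : Subgroup G).topologicalClosure

theorem lcs_map {G H : Type} [Group G] [TopologicalSpace G] [IsTopologicalGroup G]
    [Group H] [TopologicalSpace H] [IsTopologicalGroup H] (φ : G →* H) (hφ : Continuous φ)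
    (n : ℕ) {x : G} (hx : x ∈ lcs G n) : φ x ∈ lcs H n := by
  have key : ∀ n, lcs G n ≤ (lcs H n).comap φ := by
    intro n
    induction n with
    | zero => intro x _; exact Subgroup.mem_top _
    | succ n ih =>
      refine Subgroup.topologicalClosure_minimal _ ?_ ?_
      · rw [Subgroup.commutator_le]
        intro a ha b _
        show φ ⁅a, b⁆ ∈ lcs H (n + 1)
        rw [map_commutatorElement]
        exact Subgroup.le_topologicalClosure _
          (Subgroup.commutator_mem_commutator (ih ha) (Subgroup.mem_top _))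
      · exact (Subgroup.isClosed_topologicalClosure _).preimage hφ
  exact key n hx

theorem one_add_pow_aux {A : Type*} [Ring A] (z : A) (n : ℕ) :
    ∃ q : A, (1 + z) ^ n = 1 + (n : A) * z + z ^ 2 * q := by
  induction n with
  | zero => exact ⟨0, by simp⟩
  | succ n ih =>
    obtain ⟨q, hq⟩ := ih
    refine ⟨n + q * (1 + z), ?_⟩
    rw [pow_succ, hq]
    have h : (n : A) * z = z * n := (Nat.cast_commute n z).eq
    have h2 : ((n + 1 : ℕ) : A) = n + 1 := Nat.cast_succ n
    rw [h2, add_mul (n : A) 1 z, one_mul]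
    have : z ^ 2 * ((n : A) + q * (1 + z)) = z * z * n + z ^ 2 * q * (1 + z) := by
      noncomm_ring
    rw [this]
    have h3 : (1 + (n : A) * z + z ^ 2 * q) * (1 + z) =
        1 + z + (n : A) * z + (n : A) * z * z + z ^ 2 * q * (1 + z) := by noncomm_ring
    rw [h3]
    have h4 : (n : A) * z * z = z * z * n := by
      rw [h, mul_assoc, h, ← mul_assoc]
    rw [h4]
    abel

namespace Dat

variable {p : ℕ} [Fact p.Prime] {R : Type} [CommRing R] {D : Dat p R}

theorem U_pow (s : R) (n : ℕ) : (U s) ^ n = U (n * s) := by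
  induction n with
  | zero =>
    rw [pow_zero]
    apply Subtype.ext
    ext i j
    fin_cases i <;> fin_cases j <;> simp [U]
  | succ n ih =>
    rw [pow_succ, ih]
    apply Subtype.ext
    ext i j
    fin_cases i <;> fin_cases j
    · show ((U (n * s)) * U s : SL R).1 0 0 = _
      rw [mul00]; simp [U]
    · show ((U (n * s)) * U s : SL R).1 0 1 = _
      rw [mul01]; simp [U]; ring
    · show ((U (n * s)) * U s : SL R).1 1 0 = _
      rw [mul10]; simp [U]
    · show ((U (n * s)) * U s : SL R).1 1 1 = _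
      rw [mul11]; simp [U]

theorem pow_shift {e : ℕ} (he : (p : R) = D.w ^ e) {y : SL R} (hy : y ∈ D.G (2 * e + 1)) {m : ℕ}
    (hm : m + 2 ≤ e) : y ^ p ∈ D.G (2 * (e + m + 1)) := by
  obtain ⟨h1, h2, h3, h4⟩ := mem_odd.1 hy
  have h1' : D.w ^ e ∣ y.1 0 0 - 1 := dvd_of_le (by omega) h1
  have h3' : D.w ^ e ∣ y.1 1 0 := dvd_of_le (by omega) h3
  have h4' : D.w ^ e ∣ y.1 1 1 - 1 := dvd_of_le (by omega) h4
  obtain ⟨a, ha⟩ := h1'
  obtain ⟨b, hb⟩ := h2
  obtain ⟨c, hc⟩ := h3'
  obtain ⟨d, hd⟩ := h4'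
  have hM : y.1 = 1 + D.w ^ e • !![a, b; c, d] := by
    ext i j
    fin_cases i <;> fin_cases j
    · simp; linear_combination ha
    · simpa using hb
    · simpa using hc
    · simp; linear_combination hd
  obtain ⟨q, hq⟩ := one_add_pow_aux (D.w ^ e • !![a, b; c, d]) p
  have hP : (y ^ p).1 = 1 + D.w ^ (2 * e) • (!![a, b; c, d] + !![a, b; c, d] ^ 2 * q) := by
    rw [Matrix.SpecialLinearGroup.coe_pow, hM, hq]
    have e1 : ((p : ℕ) : Matrix (Fin 2) (Fin 2) R) * (D.w ^ e • !![a, b; c, d]) =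
        D.w ^ (2 * e) • !![a, b; c, d] := by
      have : ((p : ℕ) : Matrix (Fin 2) (Fin 2) R) = (p : R) • 1 := by
        rw [← Matrix.diagonal_natCast', Matrix.smul_one_eq_diagonal]
        rfl
      rw [this, he, Matrix.smul_mul, Matrix.one_mul, smul_smul, ← pow_add, two_mul]
    have e2 : (D.w ^ e • !![a, b; c, d]) ^ 2 * q = D.w ^ (2 * e) • (!![a, b; c, d] ^ 2 * q) := by
      rw [smul_pow, ← pow_mul, mul_comm e 2, Matrix.smul_mul]
    rw [e1, e2, smul_add, add_assoc]
  have hent : ∀ i j, D.w ^ (2 * e) ∣ ((y ^ p).1 - 1) i j := by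
    intro i j
    rw [hP, add_sub_cancel_left, Matrix.smul_apply, smul_eq_mul]
    exact dvd_mul_right _ _
  rw [mem_even]
  refine ⟨?_, ?_, ?_, ?_⟩
  · have := hent 0 0
    simp only [Matrix.sub_apply, Matrix.one_apply_eq] at this
    exact dvd_of_le (by omega) this
  · have := hent 0 1
    simp only [Matrix.sub_apply, ne_eq, zero_ne_one, not_false_eq_true, Matrix.one_apply_ne,
      sub_zero] at this
    exact dvd_of_le (by omega) this
  · have := hent 1 0
    simp only [Matrix.sub_apply, ne_eq, one_ne_zero, not_false_eq_true, Matrix.one_apply_ne,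
      sub_zero] at this
    exact dvd_of_le (by omega) this
  · have := hent 1 1
    simp only [Matrix.sub_apply, Matrix.one_apply_eq] at this
    exact dvd_of_le (by omega) this

section top
variable [TopologicalSpace R] [IsTopologicalRing R] [CompactSpace R] [T2Space R]

theorem lcs_eq (h2 : (2 : ZMod p) ≠ 0) (n : ℕ) : lcs D.Γ n = D.F (n + 1) := by
  induction n with
  | zero => rw [zero_add, F_one]; rfl
  | succ n ih =>
    have hdef : lcs D.Γ (n + 1) =
        (⁅D.F (n + 1), (⊤ : Subgroup D.Γ)⁆ : Subgroup D.Γ).topologicalClosure := by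
      rw [← ih]; rfl
    rw [hdef]
    have hnF : (D.F (n + 1)).Normal := by
      constructor
      intro a ha g
      have h1 : g * a * g⁻¹ * a⁻¹ ∈ D.F (n + 1) := by
        have := comm_mem (D := D) (m := 1) (n := n + 1) g.2 ha
        exact F_mono (by omega : n + 1 ≤ 1 + (n + 1)) this
      have e : g * a * g⁻¹ = (g * a * g⁻¹ * a⁻¹) * a := by group
      rw [e]
      exact (D.F _).mul_mem h1 ha
    apply le_antisymm
    · refine Subgroup.topologicalClosure_minimal _ ?_ (isClosed_F _)
      rw [Subgroup.commutator_le]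
      intro a ha b _
      exact comm_mem (D := D) (m := n + 1) (n := 1) ha b.2
    · set N := (⁅D.F (n + 1), (⊤ : Subgroup D.Γ)⁆ : Subgroup D.Γ).topologicalClosure with hN
      have hle : (⁅D.F (n + 1), (⊤ : Subgroup D.Γ)⁆ : Subgroup D.Γ) ≤ N :=
        Subgroup.le_topologicalClosure _
      have hNc : IsClosed (N : Set D.Γ) := Subgroup.isClosed_topologicalClosure _
      have hNn : N.Normal := Subgroup.is_normal_topologicalClosure _
      obtain ⟨x, hx, hx'⟩ := layerF (D := D) (j := n + 1) (by omega)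
      have hcm : ∀ u : D.Γ, x * u * x⁻¹ * u⁻¹ ∈ N := fun u =>
        hle (Subgroup.commutator_mem_commutator hx (Subgroup.mem_top u))
      have hcov : ∀ g ∈ D.F (n + 2), ∃ y ∈ N, y ∈ D.F (n + 2) ∧ y⁻¹ * g ∈ D.F (n + 3) := by
        intro g hg
        obtain ⟨u, v, h3, h4⟩ := cover h2 (by omega) hx hx' hg
        exact ⟨_, N.mul_mem (hcm u) (hcm v), h3, h4⟩
      obtain ⟨g, hg, hg'⟩ := layerF (D := D) (j := n + 2) (by omega)
      obtain ⟨z, hzN, hz, hzg⟩ := hcov g hg
      have hz' : z ∉ D.F (n + 2 + 1) := by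
        intro h
        apply hg'
        have e : g = z * (z⁻¹ * g) := by group
        rw [e]
        exact (D.F _).mul_mem h hzg
      have h3 : D.F (n + 2 + 1) ≤ N := main_le h2 hNn hNc (by omega) hzN hz hz'
      intro g hg
      obtain ⟨y, hyN, hy, hyg⟩ := hcov g hg
      have e : g = y * (y⁻¹ * g) := by group
      rw [e]
      exact N.mul_mem hyN (h3 hyg)

end top

/-- groups with far apart ramification are not isomorphic -/
theorem not_iso (h2 : (2 : ZMod p) ≠ 0) [TopologicalSpace R] [IsTopologicalRing R]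
    [CompactSpace R] [T2Space R] {R' : Type} [CommRing R'] {D' : Dat p R'}
    [TopologicalSpace R'] [IsTopologicalRing R'] [CompactSpace R'] [T2Space R']
    {e e' : ℕ} (he : (p : R) = D.w ^ e) (he' : (p : R') = D'.w ^ e') (hlt : e + 2 ≤ e')
    (φ : D.Γ ≃ₜ* D'.Γ) : False := by
  let x : D.Γ := ⟨U (D.w ^ e'), U_mem _⟩
  have hx : x ∈ lcs D.Γ (2 * e') := by
    rw [lcs_eq h2]; exact U_pow_mem e'
  have hy : φ x ∈ lcs D'.Γ (2 * e') := lcs_map φ.toMonoidHom φ.continuous _ hx
  rw [lcs_eq h2] at hy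
  have hy2 : (φ x) ^ p ∈ D'.F (2 * (e' + e + 1)) := pow_shift he' hy hlt
  have hy3 : (φ x) ^ p ∈ lcs D'.Γ (2 * (e' + e) + 1) := by
    rw [lcs_eq h2]; exact hy2
  have hz : φ.symm ((φ x) ^ p) ∈ lcs D.Γ (2 * (e' + e) + 1) :=
    lcs_map φ.symm.toMonoidHom φ.symm.continuous _ hy3
  rw [lcs_eq h2, map_pow, ContinuousMulEquiv.symm_apply_apply] at hz
  have hz2 : (U (D.w ^ e')) ^ p ∈ D.G (2 * (e' + e + 1)) := hz
  rw [U_pow, he, ← pow_add, mem_even] at hz2
  have h3 := hz2.2.1
  have h4 : D.w ^ (e' + e + 1) ∣ D.w ^ (e + e') := h3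
  rw [w_pow_dvd_iff] at h4
  omega

end Dat
end Pool.Agent.W172.Thin
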