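import Pool.Agent.W172.Thin.Alg

set_option autoImplicit false
set_option linter.unusedSectionVars false

namespace Pool.Agent.W172.Thin

open Polynomial Topology

variable (p : ℕ) [Fact p.Prime] (n : ℕ)

/-- `X^(n+1) - p` -/
noncomputable def eis : ℤ_[p][X] := X ^ (n + 1) - C (p : ℤ_[p])

theorem eis_monic : (eis p n).Monic := monic_X_pow_sub_C _ (by omega)

/-- the totally ramified ring `ℤ_p[p^(1/(n+1))]` -/
abbrev RR : Type := AdjoinRoot (eis p n)

noncomputable def bas : Module.Basis (Fin (eis p n).natDegree) ℤ_[p] (RR p n) :=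
  (AdjoinRoot.powerBasis' (eis_monic p n)).basis

instance : Module.Finite ℤ_[p] (RR p n) := Module.Finite.of_basis (bas p n)
instance : Module.Free ℤ_[p] (RR p n) := Module.Free.of_basis (bas p n)

noncomputable instance : TopologicalSpace (RR p n) := moduleTopology ℤ_[p] (RR p n)
instance : IsModuleTopology ℤ_[p] (RR p n) := ⟨rfl⟩
instance : IsTopologicalRing (RR p n) := IsModuleTopology.isTopologicalRing ℤ_[p] (RR p n)

noncomputable def hom : RR p n ≃ₜ (Fin (eis p n).natDegree → ℤ_[p]) where
  toEquiv := (bas p n).equivFun.toEquiv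
  continuous_toFun := IsModuleTopology.continuous_of_linearMap (bas p n).equivFun.toLinearMap
  continuous_invFun :=
    IsModuleTopology.continuous_of_linearMap (bas p n).equivFun.symm.toLinearMap

instance : CompactSpace (RR p n) := (hom p n).symm.compactSpace
instance : T2Space (RR p n) := (hom p n).symm.t2Space
instance : TotallyDisconnectedSpace (RR p n) := (hom p n).symm.totallyDisconnectedSpace

/-- uniformiser -/
noncomputable def ww : RR p n := AdjoinRoot.root (eis p n)

theorem ww_pow : (p : RR p n) = ww p n ^ (n + 1) := by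
  have h : AdjoinRoot.mk (eis p n) (eis p n) = 0 := AdjoinRoot.mk_self
  unfold eis at h
  rw [map_sub, map_pow, AdjoinRoot.mk_X] at h
  have h2 : AdjoinRoot.mk (eis p n) (C (p : ℤ_[p])) = (p : RR p n) := by
    rw [map_natCast, map_natCast]
  have h3 := sub_eq_zero.1 h
  rw [← h2]
  exact h3.symm

theorem eval_zero : (eis p n).eval₂ (PadicInt.toZMod (p := p)) 0 = 0 := by
  unfold eis
  simp

/-- residue map -/
noncomputable def rr : RR p n →+* ZMod p :=
  AdjoinRoot.lift (PadicInt.toZMod (p := p)) 0 (eval_zero p n)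

theorem rr_ww : rr p n (ww p n) = 0 := AdjoinRoot.lift_root _

theorem rr_iff (x : RR p n) : rr p n x = 0 ↔ ww p n ∣ x := by
  constructor
  · intro h
    obtain ⟨f, rfl⟩ := AdjoinRoot.mk_surjective x
    have h1 : f.eval₂ (PadicInt.toZMod (p := p)) 0 = 0 := by
      have := AdjoinRoot.lift_mk (eval_zero p n) f
      rw [← this]; exact h
    rw [eval₂_at_zero] at h1
    have h2 : f.coeff 0 ∈ RingHom.ker (PadicInt.toZMod (p := p)) := h1
    rw [PadicInt.ker_toZMod, PadicInt.maximalIdeal_eq_span_p, Ideal.mem_span_singleton] at h2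
    obtain ⟨c, hc⟩ := h2
    have h3 : f = f.divX * X + C (f.coeff 0) := (divX_mul_X_add f).symm
    rw [h3, hc, map_add, map_mul, AdjoinRoot.mk_X, C_mul, map_mul, C_eq_natCast, map_natCast,
      ww_pow, pow_succ']
    refine dvd_add (dvd_mul_left _ _) ?_
    rw [mul_assoc]
    exact dvd_mul_right _ _
  · rintro ⟨y, rfl⟩
    rw [map_mul, rr_ww, zero_mul]


theorem nzd_p (x : RR p n) (h : (p : RR p n) * x = 0) : x = 0 := by
  have h1 : (p : ℤ_[p]) • x = 0 := by
    rw [Algebra.smul_def, map_natCast]; exact h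
  apply (bas p n).ext_elem
  intro i
  have h2 := congrArg (fun y => (bas p n).repr y i) h1
  simp only [map_smul, Finsupp.smul_apply, smul_eq_mul, map_zero, Finsupp.zero_apply] at h2 ⊢
  exact (mul_eq_zero.1 h2).resolve_left (by exact_mod_cast (Fact.out : p.Prime).ne_zero)

theorem nzd_w (x : RR p n) (h : ww p n * x = 0) : x = 0 := by
  apply nzd_p
  rw [ww_pow, pow_succ, mul_assoc, h, mul_zero]

theorem padic_sep {c : ℤ_[p]} (h : ∀ m : ℕ, (p : ℤ_[p]) ^ m ∣ c) : c = 0 := by
  by_contra hc
  obtain ⟨m, hm⟩ := FiniteMultiplicity.of_not_isUnit (a := (p : ℤ_[p])) (b := c)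
    (PadicInt.prime_p.not_isUnit) hc
  exact hm (h _)

theorem sep_w (x : RR p n) (h : ∀ k : ℕ, ww p n ^ k ∣ x) : x = 0 := by
  apply (bas p n).ext_elem
  intro i
  rw [map_zero, Finsupp.zero_apply]
  apply padic_sep
  intro m
  obtain ⟨y, hy⟩ := h ((n + 1) * m)
  rw [pow_mul, ← ww_pow] at hy
  have h1 : x = ((p : ℤ_[p]) ^ m) • y := by
    rw [Algebra.smul_def, map_pow, map_natCast]; exact hy
  rw [h1, map_smul, Finsupp.smul_apply, smul_eq_mul]
  exact dvd_mul_right _ _

/-- the data for `RR` -/
noncomputable def dat : Dat p (RR p n) where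
  w := ww p n
  r := rr p n
  r_iff := rr_iff p n
  nzd := nzd_w p n
  sep := sep_w p n

end Pool.Agent.W172.Thin
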