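import Mathlib

set_option autoImplicit false

namespace Pool.Agent.W172.Thin

open Matrix

/-- Data on a commutative ring: a uniformiser with residue field of `p` elements. -/
structure Dat (p : ℕ) (R : Type) [CommRing R] where
  w : R
  r : R →+* ZMod p
  r_iff : ∀ x, r x = 0 ↔ w ∣ x
  nzd : ∀ x, w * x = 0 → x = 0
  sep : ∀ x, (∀ k : ℕ, w ^ k ∣ x) → x = 0

variable {p : ℕ} {R : Type} [CommRing R] (D : Dat p R)

namespace Dat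

/-- the ideal filtration of the Iwahori order -/
def J (n : ℕ) (M : Matrix (Fin 2) (Fin 2) R) : Prop :=
  D.w ^ ((n + 1) / 2) ∣ M 0 0 ∧ D.w ^ (n / 2) ∣ M 0 1 ∧ D.w ^ (n / 2 + 1) ∣ M 1 0 ∧
    D.w ^ ((n + 1) / 2) ∣ M 1 1

variable {D}

theorem dvd_of_le {a b : ℕ} (h : a ≤ b) {x : R} (hx : D.w ^ b ∣ x) : D.w ^ a ∣ x :=
  (pow_dvd_pow _ h).trans hx

theorem dvd_mul' {a b c : ℕ} {x y : R} (hx : D.w ^ a ∣ x) (hy : D.w ^ b ∣ y) (h : c ≤ a + b) :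
    D.w ^ c ∣ x * y := by
  have : D.w ^ (a + b) ∣ x * y := by rw [pow_add]; exact mul_dvd_mul hx hy
  exact dvd_of_le h this

theorem J.mono {m n : ℕ} (h : n ≤ m) {M : Matrix (Fin 2) (Fin 2) R} (hM : D.J m M) : D.J n M :=
  ⟨dvd_of_le (by omega) hM.1, dvd_of_le (by omega) hM.2.1, dvd_of_le (by omega) hM.2.2.1,
    dvd_of_le (by omega) hM.2.2.2⟩

theorem J.add {n : ℕ} {M N : Matrix (Fin 2) (Fin 2) R} (hM : D.J n M) (hN : D.J n N) :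
    D.J n (M + N) :=
  ⟨dvd_add hM.1 hN.1, dvd_add hM.2.1 hN.2.1, dvd_add hM.2.2.1 hN.2.2.1,
    dvd_add hM.2.2.2 hN.2.2.2⟩

theorem J.sub {n : ℕ} {M N : Matrix (Fin 2) (Fin 2) R} (hM : D.J n M) (hN : D.J n N) :
    D.J n (M - N) :=
  ⟨dvd_sub hM.1 hN.1, dvd_sub hM.2.1 hN.2.1, dvd_sub hM.2.2.1 hN.2.2.1,
    dvd_sub hM.2.2.2 hN.2.2.2⟩

theorem J.mul {m n : ℕ} {M N : Matrix (Fin 2) (Fin 2) R} (hM : D.J m M) (hN : D.J n N) :
    D.J (m + n) (M * N) := by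
  obtain ⟨h1, h2, h3, h4⟩ := hM
  obtain ⟨k1, k2, k3, k4⟩ := hN
  refine ⟨?_, ?_, ?_, ?_⟩
  · rw [Matrix.mul_apply, Fin.sum_univ_two]
    exact dvd_add (dvd_mul' h1 k1 (by omega)) (dvd_mul' h2 k3 (by omega))
  · rw [Matrix.mul_apply, Fin.sum_univ_two]
    exact dvd_add (dvd_mul' h1 k2 (by omega)) (dvd_mul' h2 k4 (by omega))
  · rw [Matrix.mul_apply, Fin.sum_univ_two]
    exact dvd_add (dvd_mul' h3 k1 (by omega)) (dvd_mul' h4 k3 (by omega))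
  · rw [Matrix.mul_apply, Fin.sum_univ_two]
    exact dvd_add (dvd_mul' h3 k2 (by omega)) (dvd_mul' h4 k4 (by omega))

theorem J.zero (n : ℕ) : D.J n (0 : Matrix (Fin 2) (Fin 2) R) := by
  refine ⟨?_, ?_, ?_, ?_⟩ <;> simp

theorem J.one : D.J 0 (1 : Matrix (Fin 2) (Fin 2) R) := by
  refine ⟨?_, ?_, ?_, ?_⟩ <;> simp

abbrev SL (R : Type) [CommRing R] := Matrix.SpecialLinearGroup (Fin 2) R

theorem inv00 (x : SL R) : (x⁻¹).1 0 0 = x.1 1 1 := by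
  rw [Matrix.SpecialLinearGroup.SL2_inv_expl]; rfl

theorem inv01 (x : SL R) : (x⁻¹).1 0 1 = -x.1 0 1 := by
  rw [Matrix.SpecialLinearGroup.SL2_inv_expl]; rfl

theorem inv10 (x : SL R) : (x⁻¹).1 1 0 = -x.1 1 0 := by
  rw [Matrix.SpecialLinearGroup.SL2_inv_expl]; rfl

theorem inv11 (x : SL R) : (x⁻¹).1 1 1 = x.1 0 0 := by
  rw [Matrix.SpecialLinearGroup.SL2_inv_expl]; rfl

theorem J_inv {n : ℕ} {x : SL R} (h : D.J n (x.1 - 1)) : D.J n ((x⁻¹).1 - 1) := by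
  obtain ⟨h1, h2, h3, h4⟩ := h
  simp only [Matrix.sub_apply, Matrix.one_apply_eq, ne_eq, zero_ne_one, not_false_eq_true,
    one_ne_zero, Matrix.one_apply_ne, sub_zero] at h1 h2 h3 h4
  refine ⟨?_, ?_, ?_, ?_⟩
  · rw [Matrix.sub_apply, inv00]; simpa using h4
  · rw [Matrix.sub_apply, inv01]; simpa using h2
  · rw [Matrix.sub_apply, inv10]; simpa using h3
  · rw [Matrix.sub_apply, inv11]; simpa using h1

theorem J_mul {n : ℕ} {x y : SL R} (hx : D.J n (x.1 - 1)) (hy : D.J n (y.1 - 1)) :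
    D.J n ((x * y).1 - 1) := by
  have e : (x * y).1 - 1 = (x.1 - 1) * (y.1 - 1) + ((x.1 - 1) + (y.1 - 1)) := by
    rw [Matrix.SpecialLinearGroup.coe_mul]; noncomm_ring
  rw [e]
  exact ((hx.mul hy).mono (by omega)).add (hx.add hy)

/-- the filtration of `SL_2` -/
def G (D : Dat p R) (n : ℕ) : Subgroup (SL R) where
  carrier := {x | D.J n (x.1 - 1)}
  one_mem' := by
    show D.J n ((1 : SL R).1 - 1)
    have : (1 : SL R).1 - 1 = 0 := by simp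
    rw [this]; exact J.zero n
  mul_mem' := fun hx hy => J_mul hx hy
  inv_mem' := fun hx => J_inv hx

theorem mem_G {n : ℕ} {x : SL R} : x ∈ D.G n ↔ D.J n (x.1 - 1) := Iff.rfl

theorem G_mono {m n : ℕ} (h : n ≤ m) : D.G m ≤ D.G n := fun _ hx => J.mono h hx

theorem mem_G' {n : ℕ} {x : SL R} : x ∈ D.G n ↔
    D.w ^ ((n + 1) / 2) ∣ x.1 0 0 - 1 ∧ D.w ^ (n / 2) ∣ x.1 0 1 ∧ D.w ^ (n / 2 + 1) ∣ x.1 1 0 ∧
    D.w ^ ((n + 1) / 2) ∣ x.1 1 1 - 1 := by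
  rw [mem_G]
  unfold J
  simp

/-- `[G_m, G_n] ≤ G_{m+n}` -/
theorem comm_mem {m n : ℕ} {x y : SL R} (hx : x ∈ D.G m) (hy : y ∈ D.G n) :
    x * y * x⁻¹ * y⁻¹ ∈ D.G (m + n) := by
  have hx0 : x ∈ D.G 0 := G_mono (Nat.zero_le _) hx
  have hy0 : y ∈ D.G 0 := G_mono (Nat.zero_le _) hy
  have h0 : (y * x)⁻¹ ∈ D.G 0 := (D.G 0).inv_mem ((D.G 0).mul_mem hy0 hx0)
  have hJ0 : D.J 0 ((y * x)⁻¹).1 := by
    have e : ((y * x)⁻¹).1 = (((y * x)⁻¹).1 - 1) + 1 := by abel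
    rw [e]
    exact (mem_G.1 h0).add J.one
  have e1 : (y * x).1 * ((y * x)⁻¹).1 = 1 := by
    rw [← Matrix.SpecialLinearGroup.coe_mul, mul_inv_cancel, Matrix.SpecialLinearGroup.coe_one]
  have e : (x * y * x⁻¹ * y⁻¹).1 - 1 =
      ((x.1 - 1) * (y.1 - 1) - (y.1 - 1) * (x.1 - 1)) * ((y * x)⁻¹).1 := by
    have e2 : x * y * x⁻¹ * y⁻¹ = (x * y) * (y * x)⁻¹ := by group
    rw [e2, Matrix.SpecialLinearGroup.coe_mul]
    have e3 : (x.1 - 1) * (y.1 - 1) - (y.1 - 1) * (x.1 - 1) = (x * y).1 - (y * x).1 := by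
      rw [Matrix.SpecialLinearGroup.coe_mul, Matrix.SpecialLinearGroup.coe_mul]; noncomm_ring
    rw [e3, sub_mul, e1]
  rw [mem_G, e]
  have h1 := (mem_G.1 hx).mul (mem_G.1 hy)
  have h2 := (mem_G.1 hy).mul (mem_G.1 hx)
  rw [add_comm n m] at h2
  exact (h1.sub h2).mul hJ0

end Dat
end Pool.Agent.W172.Thin
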