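import Pool.Agent.W172.Thin.Alg

set_option autoImplicit false
set_option linter.unusedSimpArgs false

namespace Pool.Agent.W172.Thin
namespace Dat

open Matrix

variable {p : ℕ} {R : Type} [CommRing R] {D : Dat p R}

theorem nzd_pow (k : ℕ) {x : R} (h : D.w ^ k * x = 0) : x = 0 := by
  induction k with
  | zero => simpa using h
  | succ k ih =>
    apply ih
    apply D.nzd
    rw [← mul_assoc, ← pow_succ']
    exact h

theorem pow_cancel (k : ℕ) {x y : R} (h : D.w ^ k * x = D.w ^ k * y) : x = y := by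
  have : D.w ^ k * (x - y) = 0 := by rw [mul_sub, h, sub_self]
  exact sub_eq_zero.1 (nzd_pow k this)

open Classical in
/-- leading coefficient of `x` at `w^k` -/
noncomputable def cl (D : Dat p R) (k : ℕ) (x : R) : ZMod p :=
  D.r (if h : D.w ^ k ∣ x then h.choose else 0)

theorem cl_mul (k : ℕ) (z : R) : D.cl k (D.w ^ k * z) = D.r z := by
  unfold cl
  have h : D.w ^ k ∣ D.w ^ k * z := dvd_mul_right _ _
  rw [dif_pos h]
  have := h.choose_spec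
  rw [pow_cancel k this.symm]

theorem cl_add {k : ℕ} {x y : R} (hx : D.w ^ k ∣ x) (hy : D.w ^ k ∣ y) :
    D.cl k (x + y) = D.cl k x + D.cl k y := by
  obtain ⟨a, rfl⟩ := hx
  obtain ⟨b, rfl⟩ := hy
  rw [← mul_add, cl_mul, cl_mul, cl_mul, map_add]

theorem cl_eq_zero {k : ℕ} {x : R} (hx : D.w ^ k ∣ x) : D.cl k x = 0 ↔ D.w ^ (k + 1) ∣ x := by
  obtain ⟨a, rfl⟩ := hx
  rw [cl_mul, D.r_iff]
  constructor
  · rintro ⟨b, rfl⟩
    exact ⟨b, by rw [pow_succ, mul_assoc]⟩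
  · rintro ⟨b, hb⟩
    refine ⟨b, pow_cancel (D := D) k ?_⟩
    rw [hb, pow_succ, mul_assoc]

theorem cl_of_dvd {k : ℕ} {x : R} (hx : D.w ^ (k + 1) ∣ x) : D.cl k x = 0 :=
  (cl_eq_zero (dvd_of_le (by omega) hx)).2 hx

theorem cl_zero (k : ℕ) : D.cl k 0 = 0 := cl_of_dvd (dvd_zero _)

/-- class at odd levels -/
noncomputable def ob (D : Dat p R) (k : ℕ) (x : SL R) : ZMod p × ZMod p :=
  (D.cl k (x.1 0 1), D.cl (k + 1) (x.1 1 0))

/-- class at even levels -/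
noncomputable def ev (D : Dat p R) (k : ℕ) (x : SL R) : ZMod p :=
  D.cl k (x.1 0 0 - 1)

theorem mem_odd {k : ℕ} {x : SL R} : x ∈ D.G (2 * k + 1) ↔
    D.w ^ (k + 1) ∣ x.1 0 0 - 1 ∧ D.w ^ k ∣ x.1 0 1 ∧ D.w ^ (k + 1) ∣ x.1 1 0 ∧
    D.w ^ (k + 1) ∣ x.1 1 1 - 1 := by
  rw [mem_G']
  have h1 : (2 * k + 1 + 1) / 2 = k + 1 := by omega
  have h2 : (2 * k + 1) / 2 = k := by omega
  rw [h1, h2]

theorem mem_even {k : ℕ} {x : SL R} : x ∈ D.G (2 * k) ↔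
    D.w ^ k ∣ x.1 0 0 - 1 ∧ D.w ^ k ∣ x.1 0 1 ∧ D.w ^ (k + 1) ∣ x.1 1 0 ∧
    D.w ^ k ∣ x.1 1 1 - 1 := by
  rw [mem_G']
  have h1 : (2 * k + 1) / 2 = k := by omega
  have h2 : (2 * k) / 2 = k := by omega
  rw [h1, h2]

theorem mul00 (x y : SL R) : (x * y).1 0 0 = x.1 0 0 * y.1 0 0 + x.1 0 1 * y.1 1 0 := by
  rw [Matrix.SpecialLinearGroup.coe_mul, Matrix.mul_apply, Fin.sum_univ_two]
theorem mul01 (x y : SL R) : (x * y).1 0 1 = x.1 0 0 * y.1 0 1 + x.1 0 1 * y.1 1 1 := by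
  rw [Matrix.SpecialLinearGroup.coe_mul, Matrix.mul_apply, Fin.sum_univ_two]
theorem mul10 (x y : SL R) : (x * y).1 1 0 = x.1 1 0 * y.1 0 0 + x.1 1 1 * y.1 1 0 := by
  rw [Matrix.SpecialLinearGroup.coe_mul, Matrix.mul_apply, Fin.sum_univ_two]
theorem mul11 (x y : SL R) : (x * y).1 1 1 = x.1 1 0 * y.1 0 1 + x.1 1 1 * y.1 1 1 := by
  rw [Matrix.SpecialLinearGroup.coe_mul, Matrix.mul_apply, Fin.sum_univ_two]

theorem det_eq (x : SL R) : x.1 0 0 * x.1 1 1 - x.1 0 1 * x.1 1 0 = 1 := by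
  have := x.2
  rwa [Matrix.det_fin_two] at this

theorem ob_mul {k : ℕ} {x y : SL R} (hx : x ∈ D.G (2 * k + 1)) (hy : y ∈ D.G (2 * k + 1)) :
    D.ob k (x * y) = D.ob k x + D.ob k y := by
  obtain ⟨a1, b1, c1, d1⟩ := mem_odd.1 hx
  obtain ⟨a2, b2, c2, d2⟩ := mem_odd.1 hy
  refine Prod.ext ?_ ?_
  · show D.cl k ((x * y).1 0 1) = D.cl k (x.1 0 1) + D.cl k (y.1 0 1)
    have e : (x * y).1 0 1 = (x.1 0 1 + y.1 0 1) +
        ((x.1 0 0 - 1) * y.1 0 1 + x.1 0 1 * (y.1 1 1 - 1)) := by rw [mul01]; ring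
    have h3 : D.w ^ (k + 1) ∣ (x.1 0 0 - 1) * y.1 0 1 + x.1 0 1 * (y.1 1 1 - 1) :=
      dvd_add (dvd_mul' a1 b2 (by omega)) (dvd_mul' b1 d2 (by omega))
    rw [e, cl_add (dvd_add b1 b2) (dvd_of_le (by omega) h3), cl_add b1 b2, cl_of_dvd h3, add_zero]
  · show D.cl (k + 1) ((x * y).1 1 0) = D.cl (k + 1) (x.1 1 0) + D.cl (k + 1) (y.1 1 0)
    have e : (x * y).1 1 0 = (x.1 1 0 + y.1 1 0) +
        (x.1 1 0 * (y.1 0 0 - 1) + (x.1 1 1 - 1) * y.1 1 0) := by rw [mul10]; ring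
    have h3 : D.w ^ (k + 1 + 1) ∣ x.1 1 0 * (y.1 0 0 - 1) + (x.1 1 1 - 1) * y.1 1 0 :=
      dvd_add (dvd_mul' c1 a2 (by omega)) (dvd_mul' d1 c2 (by omega))
    rw [e, cl_add (dvd_add c1 c2) (dvd_of_le (by omega) h3), cl_add c1 c2, cl_of_dvd h3, add_zero]

theorem ev_mul {k : ℕ} (hk : 1 ≤ k) {x y : SL R} (hx : x ∈ D.G (2 * k)) (hy : y ∈ D.G (2 * k)) :
    D.ev k (x * y) = D.ev k x + D.ev k y := by
  obtain ⟨a1, b1, c1, d1⟩ := mem_even.1 hx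
  obtain ⟨a2, b2, c2, d2⟩ := mem_even.1 hy
  show D.cl k ((x * y).1 0 0 - 1) = D.cl k (x.1 0 0 - 1) + D.cl k (y.1 0 0 - 1)
  have e : (x * y).1 0 0 - 1 = ((x.1 0 0 - 1) + (y.1 0 0 - 1)) +
      ((x.1 0 0 - 1) * (y.1 0 0 - 1) + x.1 0 1 * y.1 1 0) := by rw [mul00]; ring
  have h3 : D.w ^ (k + 1) ∣ (x.1 0 0 - 1) * (y.1 0 0 - 1) + x.1 0 1 * y.1 1 0 :=
    dvd_add (dvd_mul' a1 a2 (by omega)) (dvd_mul' b1 c2 (by omega))
  rw [e, cl_add (dvd_add a1 a2) (dvd_of_le (by omega) h3), cl_add a1 a2, cl_of_dvd h3, add_zero]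

theorem ob_one (k : ℕ) : D.ob k 1 = 0 := by
  refine Prod.ext ?_ ?_
  · show D.cl k ((1 : SL R).1 0 1) = 0
    simp [cl_zero]
  · show D.cl (k + 1) ((1 : SL R).1 1 0) = 0
    simp [cl_zero]

theorem ev_one (k : ℕ) : D.ev k 1 = 0 := by
  show D.cl k ((1 : SL R).1 0 0 - 1) = 0
  simp [cl_zero]

theorem ob_inv {k : ℕ} {x : SL R} (hx : x ∈ D.G (2 * k + 1)) : D.ob k x⁻¹ = - D.ob k x := by
  have := ob_mul (D := D) ((D.G (2 * k + 1)).inv_mem hx) hx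
  rw [inv_mul_cancel, ob_one] at this
  exact eq_neg_of_add_eq_zero_left this.symm

theorem ev_inv {k : ℕ} (hk : 1 ≤ k) {x : SL R} (hx : x ∈ D.G (2 * k)) :
    D.ev k x⁻¹ = - D.ev k x := by
  have := ev_mul (D := D) hk ((D.G (2 * k)).inv_mem hx) hx
  rw [inv_mul_cancel, ev_one] at this
  exact eq_neg_of_add_eq_zero_left this.symm

theorem ob_pow {k : ℕ} {x : SL R} (hx : x ∈ D.G (2 * k + 1)) (n : ℕ) :
    D.ob k (x ^ n) = n • D.ob k x := by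
  induction n with
  | zero => simp [ob_one]
  | succ n ih => rw [pow_succ, ob_mul ((D.G _).pow_mem hx n) hx, ih, succ_nsmul]

theorem ev_pow {k : ℕ} (hk : 1 ≤ k) {x : SL R} (hx : x ∈ D.G (2 * k)) (n : ℕ) :
    D.ev k (x ^ n) = n • D.ev k x := by
  induction n with
  | zero => simp [ev_one]
  | succ n ih => rw [pow_succ, ev_mul hk ((D.G _).pow_mem hx n) hx, ih, succ_nsmul]

theorem ob_eq_zero {k : ℕ} {x : SL R} (hx : x ∈ D.G (2 * k + 1)) :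
    D.ob k x = 0 ↔ x ∈ D.G (2 * k + 2) := by
  obtain ⟨a1, b1, c1, d1⟩ := mem_odd.1 hx
  have e : 2 * k + 2 = 2 * (k + 1) := by ring
  rw [e, mem_even, Prod.ext_iff]
  show (D.cl k (x.1 0 1) = 0 ∧ D.cl (k + 1) (x.1 1 0) = 0) ↔ _
  rw [cl_eq_zero b1, cl_eq_zero c1]
  exact ⟨fun h => ⟨a1, h.1, h.2, d1⟩, fun h => ⟨h.2.1, h.2.2.1⟩⟩

theorem ev_eq_zero {k : ℕ} (hk : 1 ≤ k) {x : SL R} (hx : x ∈ D.G (2 * k)) :
    D.ev k x = 0 ↔ x ∈ D.G (2 * k + 1) := by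
  obtain ⟨a1, b1, c1, d1⟩ := mem_even.1 hx
  rw [mem_odd]
  show D.cl k (x.1 0 0 - 1) = 0 ↔ _
  rw [cl_eq_zero a1]
  refine ⟨fun h => ⟨h, b1, c1, ?_⟩, fun h => h.1⟩
  have e : x.1 1 1 - 1 = x.1 0 1 * x.1 1 0 - (x.1 0 0 - 1) * x.1 1 1 := by
    have := det_eq x
    linear_combination this
  rw [e]
  exact dvd_sub (dvd_mul' b1 c1 (by omega)) (h.mul_right _)

theorem ob_eq_iff {k : ℕ} {x y : SL R} (hx : x ∈ D.G (2 * k + 1)) (hy : y ∈ D.G (2 * k + 1)) :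
    D.ob k x = D.ob k y ↔ x⁻¹ * y ∈ D.G (2 * k + 2) := by
  rw [← ob_eq_zero ((D.G _).mul_mem ((D.G _).inv_mem hx) hy),
    ob_mul ((D.G _).inv_mem hx) hy, ob_inv hx, neg_add_eq_zero]

theorem ev_eq_iff {k : ℕ} (hk : 1 ≤ k) {x y : SL R} (hx : x ∈ D.G (2 * k))
    (hy : y ∈ D.G (2 * k)) :
    D.ev k x = D.ev k y ↔ x⁻¹ * y ∈ D.G (2 * k + 1) := by
  rw [← ev_eq_zero hk ((D.G _).mul_mem ((D.G _).inv_mem hx) hy),
    ev_mul hk ((D.G _).inv_mem hx) hy, ev_inv hk hx, neg_add_eq_zero]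

/-- upper unipotent -/
def U (s : R) : SL R := ⟨!![1, s; 0, 1], by simp [Matrix.det_fin_two]⟩
/-- lower unipotent -/
def V (D : Dat p R) (t : R) : SL R := ⟨!![1, 0; D.w * t, 1], by simp [Matrix.det_fin_two]⟩

theorem U_mem (s : R) : U s ∈ D.G 1 := by
  rw [mem_G']; simp [U]

theorem V_mem (t : R) : D.V t ∈ D.G 1 := by
  rw [mem_G']; simp [V]

theorem U00 (s : R) : (U s).1 0 0 = 1 := rfl
theorem U01 (s : R) : (U s).1 0 1 = s := rfl
theorem U10 (s : R) : (U s).1 1 0 = 0 := rfl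
theorem U11 (s : R) : (U s).1 1 1 = 1 := rfl
theorem V00 (s : R) : (D.V s).1 0 0 = 1 := rfl
theorem V01 (s : R) : (D.V s).1 0 1 = 0 := rfl
theorem V10 (s : R) : (D.V s).1 1 0 = D.w * s := rfl
theorem V11 (s : R) : (D.V s).1 1 1 = 1 := rfl

theorem cU00 (x : SL R) (s : R) : (x * U s * x⁻¹ * (U s)⁻¹).1 0 0 - 1 =
    - s * x.1 0 0 * x.1 1 0 := by
  simp only [mul00, mul01, mul10, mul11, inv00, inv01, inv10, inv11, U00, U01, U10, U11]
  have := det_eq x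
  linear_combination this
theorem cU01 (x : SL R) (s : R) : (x * U s * x⁻¹ * (U s)⁻¹).1 0 1 =
    s * (x.1 0 0 ^ 2 - 1) + s ^ 2 * x.1 0 0 * x.1 1 0 := by
  simp only [mul00, mul01, mul10, mul11, inv00, inv01, inv10, inv11, U00, U01, U10, U11]
  have := det_eq x
  linear_combination (-s) * this
theorem cU10 (x : SL R) (s : R) : (x * U s * x⁻¹ * (U s)⁻¹).1 1 0 =
    - s * x.1 1 0 ^ 2 := by
  simp only [mul00, mul01, mul10, mul11, inv00, inv01, inv10, inv11, U00, U01, U10, U11]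
  ring
theorem cV00 (x : SL R) (t : R) : (x * D.V t * x⁻¹ * (D.V t)⁻¹).1 0 0 - 1 =
    D.w * t * x.1 0 1 * x.1 1 1 + (D.w * t * x.1 0 1) ^ 2 := by
  simp only [mul00, mul01, mul10, mul11, inv00, inv01, inv10, inv11, V00, V01, V10, V11]
  have := det_eq x
  linear_combination this
theorem cV01 (x : SL R) (t : R) : (x * D.V t * x⁻¹ * (D.V t)⁻¹).1 0 1 =
    - (D.w * t * x.1 0 1 ^ 2) := by
  simp only [mul00, mul01, mul10, mul11, inv00, inv01, inv10, inv11, V00, V01, V10, V11]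
  ring
theorem cV10 (x : SL R) (t : R) : (x * D.V t * x⁻¹ * (D.V t)⁻¹).1 1 0 =
    D.w * t * (x.1 1 1 ^ 2 - 1) + (D.w * t) ^ 2 * x.1 0 1 * x.1 1 1 := by
  simp only [mul00, mul01, mul10, mul11, inv00, inv01, inv10, inv11, V00, V01, V10, V11]
  have := det_eq x
  linear_combination (-D.w * t) * this


theorem r_surj : Function.Surjective D.r := ZMod.ringHom_surjective D.r

theorem r_one_add {x : R} (h : D.w ∣ x - 1) : D.r x = 1 := by
  have : D.r (x - 1) = 0 := (D.r_iff _).2 h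
  rw [map_sub, map_one] at this
  exact sub_eq_zero.1 this

theorem w_not_one [Fact p.Prime] : ¬ D.w ∣ 1 := by
  intro h
  have := (D.r_iff 1).2 h
  rw [map_one] at this
  exact one_ne_zero this

theorem w_pow_dvd_iff [Fact p.Prime] {a b : ℕ} : D.w ^ a ∣ D.w ^ b ↔ a ≤ b := by
  constructor
  · intro h
    by_contra hlt
    push Not at hlt
    have h1 : D.w ^ (b + 1) ∣ D.w ^ b := dvd_of_le hlt h
    obtain ⟨c, hc⟩ := h1
    apply w_not_one (D := D)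
    refine ⟨c, pow_cancel (D := D) b ?_⟩
    rw [mul_one, ← mul_assoc, ← pow_succ]; exact hc
  · exact fun h => pow_dvd_pow _ h

/-- cover, from odd level to the next even level -/
theorem cover_odd [Fact p.Prime] {k : ℕ} {x : SL R} (hx : x ∈ D.G (2 * k + 1))
    (hx' : x ∉ D.G (2 * k + 2)) (α : ZMod p) :
    ∃ u ∈ D.G 1, x * u * x⁻¹ * u⁻¹ ∈ D.G (2 * (k + 1)) ∧
      D.ev (k + 1) (x * u * x⁻¹ * u⁻¹) = α := by
  obtain ⟨a1, b1, c1, d1⟩ := mem_odd.1 hx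
  have hne : D.ob k x ≠ 0 := fun h => hx' ((ob_eq_zero hx).1 h)
  have ha : D.r (x.1 0 0) = 1 := r_one_add ((dvd_pow_self D.w (by omega)).trans a1)
  have hd : D.r (x.1 1 1) = 1 := r_one_add ((dvd_pow_self D.w (by omega)).trans d1)
  have hG : ∀ u ∈ D.G 1, x * u * x⁻¹ * u⁻¹ ∈ D.G (2 * (k + 1)) := by
    intro u hu
    have := comm_mem hx hu
    have e : 2 * k + 1 + 1 = 2 * (k + 1) := by ring
    rwa [e] at this
  obtain ⟨b', hb⟩ := b1
  obtain ⟨c', hc⟩ := c1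
  have hob : D.ob k x = (D.r b', D.r c') := by
    refine Prod.ext ?_ ?_
    · show D.cl k (x.1 0 1) = _
      rw [hb, cl_mul]
    · show D.cl (k + 1) (x.1 1 0) = _
      rw [hc, cl_mul]
  by_cases hc0 : D.r c' = 0
  · have hb0 : D.r b' ≠ 0 := by
      intro h0
      apply hne
      rw [hob, hc0, h0]; rfl
    obtain ⟨t, ht⟩ := r_surj (D := D) (α / D.r b')
    refine ⟨D.V t, V_mem t, hG _ (V_mem t), ?_⟩
    show D.cl (k + 1) ((x * D.V t * x⁻¹ * (D.V t)⁻¹).1 0 0 - 1) = α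
    rw [cV00, hb]
    have e : D.w * t * (D.w ^ k * b') * x.1 1 1 + (D.w * t * (D.w ^ k * b')) ^ 2 =
        D.w ^ (k + 1) * (t * b' * x.1 1 1 + D.w ^ (k + 1) * (t * b') ^ 2) := by ring
    rw [e, cl_mul, map_add, map_mul, map_mul, hd, ht]
    have : D.r (D.w ^ (k + 1) * (t * b') ^ 2) = 0 :=
      (D.r_iff _).2 (Dvd.dvd.mul_right (dvd_pow_self _ (by omega)) _)
    rw [this]
    field_simp
    ring
  · obtain ⟨s, hs⟩ := r_surj (D := D) (-(α / D.r c'))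
    refine ⟨U s, U_mem s, hG _ (U_mem s), ?_⟩
    show D.cl (k + 1) ((x * U s * x⁻¹ * (U s)⁻¹).1 0 0 - 1) = α
    rw [cU00, hc]
    have e : -s * x.1 0 0 * (D.w ^ (k + 1) * c') =
        D.w ^ (k + 1) * (-s * x.1 0 0 * c') := by ring
    rw [e, cl_mul, map_mul, map_mul, map_neg, ha, hs]
    field_simp

/-- cover, from even level to the next odd level -/
theorem cover_even [Fact p.Prime] (h2 : (2 : ZMod p) ≠ 0) {k : ℕ} (hk : 1 ≤ k) {x : SL R}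
    (hx : x ∈ D.G (2 * k)) (hx' : x ∉ D.G (2 * k + 1)) (β : ZMod p × ZMod p) :
    ∃ u ∈ D.G 1, ∃ v ∈ D.G 1,
      (x * u * x⁻¹ * u⁻¹) * (x * v * x⁻¹ * v⁻¹) ∈ D.G (2 * k + 1) ∧
      D.ob k ((x * u * x⁻¹ * u⁻¹) * (x * v * x⁻¹ * v⁻¹)) = β := by
  obtain ⟨a1, b1, c1, d1⟩ := mem_even.1 hx
  have hne : D.ev k x ≠ 0 := fun h => hx' ((ev_eq_zero hk hx).1 h)
  have ha1 : D.w ∣ x.1 0 0 - 1 := by
    have := dvd_of_le (a := 1) (b := k) hk a1
    simpa using this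
  have hd1 : D.w ∣ x.1 1 1 - 1 := by
    have := dvd_of_le (a := 1) (b := k) hk d1
    simpa using this
  have ha : D.r (x.1 0 0) = 1 := r_one_add ha1
  have hd : D.r (x.1 1 1) = 1 := r_one_add hd1
  have hG : ∀ u ∈ D.G 1, x * u * x⁻¹ * u⁻¹ ∈ D.G (2 * k + 1) := fun u hu => comm_mem hx hu
  obtain ⟨a', hA⟩ := a1
  obtain ⟨b', hb⟩ := b1
  obtain ⟨c', hc⟩ := c1
  obtain ⟨d', hD⟩ := d1
  have hev : D.ev k x = D.r a' := by
    show D.cl k (x.1 0 0 - 1) = _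
    rw [hA, cl_mul]
  have ha0 : D.r a' ≠ 0 := hev ▸ hne
  have hdd : D.r d' = - D.r a' := by
    have h := det_eq x
    have h1 : D.w ^ k * (d' + a' * x.1 1 1) = D.w ^ k * (D.w ^ (k + 1) * (b' * c')) := by
      rw [hb, hc] at h
      have hd2 : x.1 1 1 = 1 + D.w ^ k * d' := by linear_combination hD
      have ha2 : x.1 0 0 = 1 + D.w ^ k * a' := by linear_combination hA
      rw [ha2] at h
      linear_combination h - hD
    have h3 := pow_cancel k h1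
    have h4 := congrArg D.r h3
    rw [map_add, map_mul, hd, mul_one] at h4
    have : D.r (D.w ^ (k + 1) * (b' * c')) = 0 :=
      (D.r_iff _).2 (Dvd.dvd.mul_right (dvd_pow_self _ (by omega)) _)
    rw [this] at h4
    linear_combination h4
  obtain ⟨s, hs⟩ := r_surj (D := D) (β.1 / (2 * D.r a'))
  obtain ⟨t, ht⟩ := r_surj (D := D) (-(β.2 / (2 * D.r a')))
  refine ⟨U s, U_mem s, D.V t, V_mem t, (D.G _).mul_mem (hG _ (U_mem s)) (hG _ (V_mem t)), ?_⟩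
  rw [ob_mul (hG _ (U_mem s)) (hG _ (V_mem t))]
  have hU : D.ob k (x * U s * x⁻¹ * (U s)⁻¹) = (β.1, 0) := by
    refine Prod.ext ?_ ?_
    · show D.cl k ((x * U s * x⁻¹ * (U s)⁻¹).1 0 1) = β.1
      rw [cU01, hc]
      have e : s * (x.1 0 0 ^ 2 - 1) + s ^ 2 * x.1 0 0 * (D.w ^ (k + 1) * c') =
          D.w ^ k * (s * a' * (x.1 0 0 + 1) + D.w * (s ^ 2 * x.1 0 0 * c')) := by
        have : x.1 0 0 ^ 2 - 1 = (x.1 0 0 - 1) * (x.1 0 0 + 1) := by ring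
        rw [this, hA]; ring
      rw [e, cl_mul, map_add, map_mul, map_mul, map_add, ha, map_one, hs]
      have : D.r (D.w * (s ^ 2 * x.1 0 0 * c')) = 0 := (D.r_iff _).2 (dvd_mul_right _ _)
      rw [this]
      field_simp
      ring
    · show D.cl (k + 1) ((x * U s * x⁻¹ * (U s)⁻¹).1 1 0) = 0
      rw [cU10, hc]
      apply cl_of_dvd
      have e : -s * (D.w ^ (k + 1) * c') ^ 2 = D.w ^ (k + 1 + 1) * (- s * D.w ^ k * c' ^ 2) := by
        ring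
      rw [e]; exact dvd_mul_right _ _
  have hV : D.ob k (x * D.V t * x⁻¹ * (D.V t)⁻¹) = (0, β.2) := by
    refine Prod.ext ?_ ?_
    · show D.cl k ((x * D.V t * x⁻¹ * (D.V t)⁻¹).1 0 1) = 0
      rw [cV01, hb]
      apply cl_of_dvd
      have e : -(D.w * t * (D.w ^ k * b') ^ 2) = D.w ^ (k + 1) * (- t * D.w ^ k * b' ^ 2) := by
        ring
      rw [e]; exact dvd_mul_right _ _
    · show D.cl (k + 1) ((x * D.V t * x⁻¹ * (D.V t)⁻¹).1 1 0) = β.2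
      rw [cV10, hb]
      have e : D.w * t * (x.1 1 1 ^ 2 - 1) + (D.w * t) ^ 2 * (D.w ^ k * b') * x.1 1 1 =
          D.w ^ (k + 1) * (t * d' * (x.1 1 1 + 1) + D.w * (t ^ 2 * b' * x.1 1 1)) := by
        have : x.1 1 1 ^ 2 - 1 = (x.1 1 1 - 1) * (x.1 1 1 + 1) := by ring
        rw [this, hD]; ring
      rw [e, cl_mul, map_add, map_mul, map_mul, map_add, hd, map_one, ht, hdd]
      have : D.r (D.w * (t ^ 2 * b' * x.1 1 1)) = 0 := (D.r_iff _).2 (dvd_mul_right _ _)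
      rw [this]
      field_simp
      ring
  rw [hU, hV]
  refine Prod.ext ?_ ?_ <;> simp

end Dat
end Pool.Agent.W172.Thin
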