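import Pool.Agent.W172.Thin.Top

set_option autoImplicit false
set_option linter.unusedSectionVars false

namespace Pool.Agent.W172.Thin
namespace Dat

open Matrix Topology

variable {p : ℕ} [Fact p.Prime] {R : Type} [CommRing R] {D : Dat p R}
variable [TopologicalSpace R] [IsTopologicalRing R] [CompactSpace R] [T2Space R]

theorem U_pow_mem (k : ℕ) : U (D.w ^ k) ∈ D.G (2 * k + 1) := by
  rw [mem_odd]; simp [U]

theorem ob_U (k : ℕ) : D.ob k (U (D.w ^ k)) = (1, 0) := by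
  refine Prod.ext ?_ ?_
  · show D.cl k (D.w ^ k) = 1
    have := cl_mul (D := D) k 1
    rw [mul_one, map_one] at this
    exact this
  · show D.cl (k + 1) 0 = 0
    exact cl_zero _

theorem layer_odd (k : ℕ) : U (D.w ^ k) ∉ D.G (2 * k + 2) := by
  intro h
  have := (ob_eq_zero (U_pow_mem (D := D) k)).2 h
  rw [ob_U] at this
  exact one_ne_zero (congrArg Prod.fst this)

theorem layer {j : ℕ} (hj : 1 ≤ j) : ∃ g ∈ D.G j, g ∉ D.G (j + 1) := by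
  rcases Nat.even_or_odd' j with ⟨k, rfl | rfl⟩
  · obtain ⟨k, rfl⟩ : ∃ m, k = m + 1 := ⟨k - 1, by omega⟩
    obtain ⟨u, hu, h1, h2⟩ := cover_odd (U_pow_mem (D := D) k) (layer_odd k) 1
    refine ⟨_, h1, fun h => ?_⟩
    rw [← ev_eq_zero (by omega) h1, h2] at h
    exact one_ne_zero h
  · exact ⟨U (D.w ^ k), U_pow_mem k, layer_odd k⟩

theorem layerF {j : ℕ} (hj : 1 ≤ j) : ∃ g ∈ D.F j, g ∉ D.F (j + 1) := by
  obtain ⟨g, hg, hg'⟩ := layer (D := D) hj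
  exact ⟨⟨g, G_mono hj hg⟩, hg, hg'⟩

/-- cover, uniform in the level; `y` is a product of commutators `[x, u] [x, v]` -/
theorem cover (h2 : (2 : ZMod p) ≠ 0) {j : ℕ} (hj : 1 ≤ j) {x : D.Γ} (hx : x ∈ D.F j)
    (hx' : x ∉ D.F (j + 1)) {g : D.Γ} (hg : g ∈ D.F (j + 1)) :
    ∃ u v : D.Γ, (x * u * x⁻¹ * u⁻¹) * (x * v * x⁻¹ * v⁻¹) ∈ D.F (j + 1) ∧
      ((x * u * x⁻¹ * u⁻¹) * (x * v * x⁻¹ * v⁻¹))⁻¹ * g ∈ D.F (j + 2) := by
  rcases Nat.even_or_odd' j with ⟨k, rfl | rfl⟩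
  · obtain ⟨u, hu, v, hv, h3, h4⟩ := cover_even (D := D) h2 (by omega) hx hx' (D.ob k g.1)
    refine ⟨⟨u, hu⟩, ⟨v, hv⟩, h3, ?_⟩
    exact (ob_eq_iff h3 hg).1 h4
  · obtain ⟨u, hu, h3, h4⟩ := cover_odd (D := D) hx hx' (D.ev (k + 1) g.1)
    have e : x * 1 * x⁻¹ * (1 : D.Γ)⁻¹ = 1 := by group
    refine ⟨⟨u, hu⟩, 1, ?_, ?_⟩
    · rw [e, mul_one]; exact h3
    · rw [e, mul_one]
      exact (ev_eq_iff (by omega) h3 hg).1 h4

theorem comm_mem_N {N : Subgroup D.Γ} (hn : N.Normal) {x : D.Γ} (hx : x ∈ N) (u : D.Γ) :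
    x * u * x⁻¹ * u⁻¹ ∈ N := by
  have e : x * u * x⁻¹ * u⁻¹ = x * (u * x⁻¹ * u⁻¹) := by group
  rw [e]
  exact N.mul_mem hx (hn.conj_mem _ (N.inv_mem hx) u)

theorem step (h2 : (2 : ZMod p) ≠ 0) {N : Subgroup D.Γ} (hn : N.Normal) {j : ℕ} (hj : 1 ≤ j)
    {x : D.Γ} (hxN : x ∈ N) (hx : x ∈ D.F j) (hx' : x ∉ D.F (j + 1)) {g : D.Γ}
    (hg : g ∈ D.F (j + 1)) : ∃ y ∈ N, y ∈ D.F (j + 1) ∧ y⁻¹ * g ∈ D.F (j + 2) := by
  obtain ⟨u, v, h3, h4⟩ := cover h2 hj hx hx' hg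
  exact ⟨_, N.mul_mem (comm_mem_N hn hxN u) (comm_mem_N hn hxN v), h3, h4⟩

theorem level_elt (h2 : (2 : ZMod p) ≠ 0) {N : Subgroup D.Γ} (hn : N.Normal) {i : ℕ} (hi : 1 ≤ i)
    {x : D.Γ} (hxN : x ∈ N) (hx : x ∈ D.F i) (hx' : x ∉ D.F (i + 1)) (n : ℕ) :
    ∃ y ∈ N, y ∈ D.F (i + n) ∧ y ∉ D.F (i + n + 1) := by
  induction n with
  | zero => exact ⟨x, hxN, hx, hx'⟩
  | succ n ih =>
    obtain ⟨y, hyN, hy, hy'⟩ := ih
    obtain ⟨g, hg, hg'⟩ := layerF (D := D) (j := i + n + 1) (by omega)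
    obtain ⟨z, hzN, hz, hzg⟩ := step h2 hn (by omega) hyN hy hy' hg
    refine ⟨z, hzN, hz, fun h => hg' ?_⟩
    have e : g = z * (z⁻¹ * g) := by group
    rw [e]
    exact (D.F _).mul_mem h hzg

theorem main_le (h2 : (2 : ZMod p) ≠ 0) {N : Subgroup D.Γ} (hn : N.Normal)
    (hc : IsClosed (N : Set D.Γ)) {i : ℕ} (hi : 1 ≤ i)
    {x : D.Γ} (hxN : x ∈ N) (hx : x ∈ D.F i) (hx' : x ∉ D.F (i + 1)) : D.F (i + 1) ≤ N := by
  refine le_of_steps hc fun j hj g hg => ?_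
  obtain ⟨n, rfl⟩ : ∃ n, j = i + n + 1 := ⟨j - i - 1, by omega⟩
  obtain ⟨y, hyN, hy, hy'⟩ := level_elt h2 hn hi hxN hx hx' n
  obtain ⟨z, hzN, hz, hzg⟩ := step h2 hn (by omega) hyN hy hy' hg
  exact ⟨z, hzN, hzg⟩

theorem level {N : Subgroup D.Γ} (hN : N ≠ ⊥) : ∃ i, 1 ≤ i ∧ N ≤ D.F i ∧
    ∃ x ∈ N, x ∈ D.F i ∧ x ∉ D.F (i + 1) := by
  classical
  have hex : ∃ n, ¬ N ≤ D.F (n + 1) := by
    by_contra h
    push Not at h
    apply hN
    rw [eq_bot_iff]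
    intro x hx
    have : x = 1 := F_bot (D := D) fun n => F_mono (by omega : n ≤ n + 1) (h n hx)
    rw [this]; exact Subgroup.mem_bot.2 rfl
  have hs := Nat.find_spec hex
  have h1 : 1 ≤ Nat.find hex := by
    rcases Nat.eq_zero_or_pos (Nat.find hex) with h0 | h0
    · exfalso
      rw [h0] at hs
      apply hs
      rw [zero_add, F_one]; exact le_top
    · exact h0
  have h3 : N ≤ D.F (Nat.find hex) := by
    have := Nat.find_min hex (m := Nat.find hex - 1) (by omega)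
    push Not at this
    rwa [Nat.sub_add_cancel h1] at this
  obtain ⟨x, hx, hx'⟩ := SetLike.not_le_iff_exists.1 hs
  exact ⟨_, h1, h3, x, hx, h3 hx, hx'⟩

theorem pow_mem {j : ℕ} (hj : 1 ≤ j) {x : SL R} (hx : x ∈ D.G j) : x ^ p ∈ D.G (j + 1) := by
  rcases Nat.even_or_odd' j with ⟨k, rfl | rfl⟩
  · rw [← ev_eq_zero (by omega) ((D.G _).pow_mem hx p), ev_pow (by omega) hx]
    simp
  · rw [← ob_eq_zero ((D.G _).pow_mem hx p), ob_pow hx]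
    refine Prod.ext ?_ ?_ <;> simp

theorem pow_pow_mem (n : ℕ) (x : D.Γ) : x ^ p ^ n ∈ D.F (n + 1) := by
  induction n with
  | zero => simp [F_one]
  | succ n ih =>
    rw [pow_succ, pow_mul]
    exact pow_mem (by omega) ih

theorem pro_p (N : Subgroup D.Γ) (hN : IsOpen (N : Set D.Γ)) (hn : N.Normal) :
    ∃ k : ℕ, N.index = p ^ k := by
  obtain ⟨n, hsub⟩ := exists_F_sub hN N.one_mem
  have : Finite (D.Γ ⧸ N) := Subgroup.quotient_finite_of_isOpen N hN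
  have hP : IsPGroup p (D.Γ ⧸ N) := by
    intro g
    obtain ⟨x, rfl⟩ := QuotientGroup.mk_surjective g
    refine ⟨n, ?_⟩
    rw [← QuotientGroup.mk_pow, QuotientGroup.eq_one_iff]
    exact hsub (F_mono (by omega : n ≤ n + 1) (pow_pow_mem n x))
  obtain ⟨k, hk⟩ := IsPGroup.iff_card.1 hP
  exact ⟨k, hk⟩

instance : Infinite D.Γ := by
  refine Infinite.of_injective (fun k : ℕ => (⟨U (D.w ^ k), U_mem _⟩ : D.Γ)) ?_
  intro a b h
  have h1 : (U (D.w ^ a) : SL R) = U (D.w ^ b) := congrArg Subtype.val h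
  have h2 : D.w ^ a = D.w ^ b := by
    have := congrArg (fun x : SL R => x.1 0 1) h1
    exact this
  exact le_antisymm (w_pow_dvd_iff (D := D).1 (dvd_of_eq h2))
    (w_pow_dvd_iff (D := D).1 (dvd_of_eq h2.symm))

end Dat
end Pool.Agent.W172.Thin
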