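import Pool.Agent.W172.Thin.Cls

set_option autoImplicit false

namespace Pool.Agent.W172.Thin
namespace Dat

open Matrix Topology

variable {p : ℕ} {R : Type} [CommRing R] {D : Dat p R}
variable [TopologicalSpace R] [IsTopologicalRing R] [CompactSpace R] [T2Space R]

omit [TopologicalSpace R] [IsTopologicalRing R] [CompactSpace R] [T2Space R] in
theorem G_bot {x : SL R} (h : ∀ n, x ∈ D.G n) : x = 1 := by
  have h00 : x.1 0 0 - 1 = 0 := D.sep _ fun k => by
    have := (mem_G'.1 (h (2 * k))).1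
    exact dvd_of_le (by omega) this
  have h01 : x.1 0 1 = 0 := D.sep _ fun k => by
    have := (mem_G'.1 (h (2 * k))).2.1
    exact dvd_of_le (by omega) this
  have h10 : x.1 1 0 = 0 := D.sep _ fun k => by
    have := (mem_G'.1 (h (2 * k))).2.2.1
    exact dvd_of_le (by omega) this
  have h11 : x.1 1 1 - 1 = 0 := D.sep _ fun k => by
    have := (mem_G'.1 (h (2 * k))).2.2.2
    exact dvd_of_le (by omega) this
  apply Subtype.ext
  ext i j
  fin_cases i <;> fin_cases j
  · simpa using sub_eq_zero.1 h00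
  · simpa using h01
  · simpa using h10
  · simpa using sub_eq_zero.1 h11

variable (D)

theorem isClosed_dvd (k : ℕ) : IsClosed {x : R | D.w ^ k ∣ x} := by
  have : {x : R | D.w ^ k ∣ x} = Set.range (fun y : R => D.w ^ k * y) := by
    ext x
    constructor
    · rintro ⟨y, rfl⟩; exact ⟨y, rfl⟩
    · rintro ⟨y, rfl⟩; exact ⟨y, rfl⟩
  rw [this]
  exact (isCompact_range (by fun_prop)).isClosed

theorem isOpen_dvd_one [Fact p.Prime] : IsOpen {x : R | D.w ∣ x} := by
  rw [← isClosed_compl_iff]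
  have hs := r_surj (D := D)
  have e : {x : R | D.w ∣ x}ᶜ = ⋃ a ∈ {a : ZMod p | a ≠ 0},
      {x : R | D.w ^ 1 ∣ x - (hs a).choose} := by
    ext x
    simp only [Set.mem_compl_iff, Set.mem_ofPred_eq, Set.mem_iUnion, pow_one]
    constructor
    · intro h
      refine ⟨D.r x, fun h0 => h ((D.r_iff x).1 h0), ?_⟩
      rw [← D.r_iff, map_sub, (hs (D.r x)).choose_spec, sub_self]
    · rintro ⟨a, ha, h⟩ h2
      rw [← D.r_iff, map_sub, (hs a).choose_spec, (D.r_iff x).2 h2, zero_sub, neg_eq_zero] at h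
      exact ha h
  rw [e]
  refine Set.Finite.isClosed_biUnion (Set.toFinite _) fun a _ => ?_
  exact (D.isClosed_dvd 1).preimage (by fun_prop)

theorem isOpen_dvd [Fact p.Prime] (k : ℕ) : IsOpen {x : R | D.w ^ k ∣ x} := by
  induction k with
  | zero => simp
  | succ k ih =>
    have e : {x : R | D.w ^ (k + 1) ∣ x} =
        {x : R | D.w ∣ x} ∩ ((fun y : R => D.w * y) '' {x : R | D.w ^ k ∣ x}ᶜ)ᶜ := by
      ext x
      constructor
      · rintro ⟨y, rfl⟩
        refine ⟨⟨D.w ^ k * y, by ring⟩, ?_⟩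
        rintro ⟨z, hz, hz2⟩
        apply hz
        refine ⟨y, ?_⟩
        have h1 : D.w ^ 1 * z = D.w ^ 1 * (D.w ^ k * y) := by
          rw [pow_one]
          have : D.w * z = D.w ^ (k + 1) * y := hz2
          rw [this]; ring
        exact pow_cancel 1 h1
      · rintro ⟨⟨z, rfl⟩, hx⟩
        by_contra hc
        apply hx
        refine ⟨z, ?_, rfl⟩
        rintro ⟨y, rfl⟩
        apply hc
        exact ⟨y, by ring⟩
    rw [e]
    refine (D.isOpen_dvd_one).inter ?_
    rw [isOpen_compl_iff]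
    refine IsCompact.isClosed ?_
    refine IsCompact.image ?_ (by fun_prop)
    exact (isClosed_compl_iff.2 ih).isCompact

instance : CompactSpace (Matrix (Fin 2) (Fin 2) R) :=
  inferInstanceAs (CompactSpace (Fin 2 → Fin 2 → R))

instance : CompactSpace (SL R) :=
  Matrix.SpecialLinearGroup.isClosedEmbedding_val.compactSpace

instance [TotallyDisconnectedSpace R] : TotallyDisconnectedSpace (Matrix (Fin 2) (Fin 2) R) :=
  inferInstanceAs (TotallyDisconnectedSpace (Fin 2 → Fin 2 → R))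

instance [TotallyDisconnectedSpace R] : TotallyDisconnectedSpace (SL R) :=
  inferInstanceAs (TotallyDisconnectedSpace (Subtype _))

theorem isOpen_G [Fact p.Prime] (n : ℕ) : IsOpen (D.G n : Set (SL R)) := by
  have : (D.G n : Set (SL R)) =
      (fun x : SL R => x.1 0 0 - 1) ⁻¹' {x : R | D.w ^ ((n + 1) / 2) ∣ x} ∩
      ((fun x : SL R => x.1 0 1) ⁻¹' {x : R | D.w ^ (n / 2) ∣ x} ∩
      ((fun x : SL R => x.1 1 0) ⁻¹' {x : R | D.w ^ (n / 2 + 1) ∣ x} ∩
      (fun x : SL R => x.1 1 1 - 1) ⁻¹' {x : R | D.w ^ ((n + 1) / 2) ∣ x})) := by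
    ext x
    exact mem_G'
  have hc : ∀ i j, Continuous (fun x : SL R => x.1 i j) := fun i j =>
    (continuous_subtype_val).matrix_elem i j
  rw [this]
  refine IsOpen.inter ?_ (IsOpen.inter ?_ (IsOpen.inter ?_ ?_))
  · exact (D.isOpen_dvd _).preimage ((hc 0 0).sub continuous_const)
  · exact (D.isOpen_dvd _).preimage (hc 0 1)
  · exact (D.isOpen_dvd _).preimage (hc 1 0)
  · exact (D.isOpen_dvd _).preimage ((hc 1 1).sub continuous_const)

theorem isClosed_G [Fact p.Prime] (n : ℕ) : IsClosed (D.G n : Set (SL R)) :=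
  Subgroup.isClosed_of_isOpen _ (D.isOpen_G n)

/-- the pro-`p` Iwahori group -/
abbrev Γ : Type := ↥(D.G 1)

instance [Fact p.Prime] : CompactSpace D.Γ :=
  isCompact_iff_compactSpace.1 (D.isClosed_G 1).isCompact

/-- filtration on `Γ` -/
def F (n : ℕ) : Subgroup D.Γ := (D.G n).subgroupOf (D.G 1)

variable {D}

omit [TopologicalSpace R] [IsTopologicalRing R] [CompactSpace R] [T2Space R] in
theorem mem_F {n : ℕ} {x : D.Γ} : x ∈ D.F n ↔ (x : SL R) ∈ D.G n := Iff.rfl

omit [TopologicalSpace R] [IsTopologicalRing R] [CompactSpace R] [T2Space R] in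
theorem F_mono {m n : ℕ} (h : n ≤ m) : D.F m ≤ D.F n := fun _ hx => G_mono h hx

omit [TopologicalSpace R] [IsTopologicalRing R] [CompactSpace R] [T2Space R] in
theorem F_one : D.F 1 = ⊤ := by
  ext x; simp [mem_F]

omit [TopologicalSpace R] [IsTopologicalRing R] [CompactSpace R] [T2Space R] in
theorem F_zero : D.F 0 = ⊤ := by
  rw [eq_top_iff, ← F_one]; exact F_mono (by omega)

theorem isOpen_F [Fact p.Prime] (n : ℕ) : IsOpen (D.F n : Set D.Γ) :=
  (D.isOpen_G n).preimage continuous_subtype_val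

theorem isClosed_F [Fact p.Prime] (n : ℕ) : IsClosed (D.F n : Set D.Γ) :=
  (D.isClosed_G n).preimage continuous_subtype_val

omit [TopologicalSpace R] [IsTopologicalRing R] [CompactSpace R] [T2Space R] in
theorem F_bot {x : D.Γ} (h : ∀ n, x ∈ D.F n) : x = 1 :=
  Subtype.ext (G_bot h)

theorem exists_F_sub [Fact p.Prime] {U : Set D.Γ} (hU : IsOpen U) (h1 : (1 : D.Γ) ∈ U) :
    ∃ n, (D.F n : Set D.Γ) ⊆ U := by
  refine exists_subset_nhds_of_compactSpace (V := fun n => (D.F n : Set D.Γ)) ?_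
    (fun n => isClosed_F n) ?_
  · intro m n
    exact ⟨max m n, F_mono (le_max_left _ _), F_mono (le_max_right _ _)⟩
  · intro x hx
    rw [Set.mem_iInter] at hx
    rw [F_bot hx]
    exact hU.mem_nhds h1

/-- density lemma -/
theorem le_of_steps [Fact p.Prime] {N : Subgroup D.Γ} (hN : IsClosed (N : Set D.Γ)) {i : ℕ}
    (h : ∀ j, i ≤ j → ∀ g ∈ D.F j, ∃ y ∈ N, y⁻¹ * g ∈ D.F (j + 1)) : D.F i ≤ N := by
  intro g hg
  have key : ∀ n, ∃ y ∈ N, y⁻¹ * g ∈ D.F (i + n) := by
    intro n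
    induction n with
    | zero => exact ⟨1, N.one_mem, by simpa using hg⟩
    | succ n ih =>
      obtain ⟨y, hy, hyg⟩ := ih
      obtain ⟨z, hz, hzg⟩ := h (i + n) (by omega) _ hyg
      refine ⟨y * z, N.mul_mem hy hz, ?_⟩
      have e : (y * z)⁻¹ * g = z⁻¹ * (y⁻¹ * g) := by group
      rw [e]; exact hzg
  by_contra hgN
  have hopen : IsOpen {z : D.Γ | g * z ∈ (N : Set D.Γ)ᶜ} :=
    (isOpen_compl_iff.2 hN).preimage (by fun_prop)
  obtain ⟨n, hn⟩ := exists_F_sub hopen (by simpa using hgN)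
  obtain ⟨y, hy, hyg⟩ := key n
  have h1 : (y⁻¹ * g)⁻¹ ∈ D.F n := (D.F n).inv_mem (F_mono (by omega) hyg)
  have h2 := hn h1
  apply h2
  have e : g * (y⁻¹ * g)⁻¹ = y := by group
  rw [e]; exact hy

end Dat
end Pool.Agent.W172.Thin
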